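import Pool.Agent.R124.CircFam

/-!
# MP_bde658: the circulant graphs `C_{2n}(x,1,n)` are word-representable

For all `1 < x < n` the 5-regular circulant graph `C_{2n}(x,1,n)` is word-representable.
-/

set_option autoImplicit false

namespace Pool.Agent.Results.MP_bde658_co.AllCirculants

/-- The circulant graph `C_{2n}(x,1,n)` on `ℤ/2n`: `i` is adjacent to
`i + 1`, `i - 1`, `i + x`, `i - x` and `i + n`. (For `1 < x < n` these are five distinct vertices
different from `i`, so the clause `i ≠ j` is then void.) -/
def circulant (n x : ℕ) : SimpleGraph (ZMod (2 * n)) where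
  Adj i j := i ≠ j ∧ (j = i + 1 ∨ j = i - 1 ∨ j = i + x ∨ j = i - x ∨ j = i + n)
  symm := (Pool.Agent.R124.CircNat.circ n x).symm
  loopless := ⟨fun _ h => h.1 rfl⟩

/-- Delete from `w` all letters other than `a` and `b`. -/
def restrictTo {V : Type} [DecidableEq V] (a b : V) (w : List V) : List V :=
  w.filter fun z => z = a ∨ z = b

/-- The letters `a` and `b` alternate in `w`: after deleting all other letters, no two consecutive
letters are equal. -/
def Alternate {V : Type} [DecidableEq V] (w : List V) (a b : V) : Prop :=
  (restrictTo a b w).IsChain (· ≠ ·)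

/-- `G` is word-representable: there is a finite word `w` in which every vertex occurs and in which
two distinct vertices alternate if and only if they are adjacent. -/
def WordRepresentable {V : Type} [DecidableEq V] (G : SimpleGraph V) : Prop :=
  ∃ w : List V, (∀ v, v ∈ w) ∧ ∀ a b, a ≠ b → (Alternate w a b ↔ G.Adj a b)

/-- **Every circulant graph `C_{2n}(x,1,n)` with `1 < x < n` is word-representable.** -/
theorem result : ∀ n x : ℕ, 1 < x → x < n → WordRepresentable (circulant n x) := by
  intro n x hx hn
  suffices h : Pool.Agent.R124.SemiTransitive.WordRepresentable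
      (Pool.Agent.R124.CircNat.circ n x) from h
  by_cases h1 : x + 1 = n
  · obtain rfl : x = n - 1 := by omega
    exact Pool.Agent.R124.CircNat.last n (by omega)
  by_cases h2 : x = 2
  · subst h2
    rcases (by omega : n % 3 = 0 ∨ n % 3 = 1 ∨ n % 3 = 2) with h | h | h
    · exact Pool.Agent.R124.CircNat.two_mod_zero n (by omega) h
    · exact Pool.Agent.R124.CircNat.two_mod_one n (by omega) h
    · exact Pool.Agent.R124.CircNat.two_mod_two n (by omega) h
  by_cases h3 : 2 * x = n
  · subst h3
    rcases Nat.mod_two_eq_zero_or_one x with h | h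
    · exact Pool.Agent.R124.CircNat.half_even x hx h
    · exact Pool.Agent.R124.CircNat.half_odd x hx h
  by_cases h4 : (n, x) ∈ Pool.Agent.R124.CircExist.spor
  · exact Pool.Agent.R124.CircNat.sporadic n x h4
  by_cases h5 : 24 ≤ n
  · obtain ⟨s, m, hg⟩ := Pool.Agent.R124.CircExist.exists_good n x h5 (by omega) (by omega) h3
    exact Pool.Agent.R124.CircNat.generic n x hx hn s m hg
  · obtain ⟨s, -, m, -, hg⟩ := Pool.Agent.R124.CircExist.exists_small_aux n
      (List.mem_range.mpr (by omega)) x (List.mem_range.mpr hn) (by
        simp only [Bool.and_eq_true, decide_eq_true_eq, Bool.not_eq_true',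
          decide_eq_false_iff_not]
        refine ⟨⟨⟨by omega, by omega⟩, h3⟩, ?_⟩
        rw [← Bool.not_eq_true]
        intro h
        exact h4 (List.contains_iff_mem.mp h))
    exact Pool.Agent.R124.CircNat.generic n x hx hn s m hg

end Pool.Agent.Results.MP_bde658_co.AllCirculants
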